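import Pool.Agent.helper42.NS.Spec2

/-! # Row `LO1` of project nos2: Littlewood-Offord modulo a large prime -/

set_option autoImplicit false

namespace Pool.Agent.helper42.NS

open Polynomial Matrix Finset

theorem LO1_cb (n : ℕ) : n.centralBinom ^ 2 * (3 * n + 1) ≤ 16 ^ n := by
  induction n with
  | zero => simp
  | succ n ih =>
    have h1 := Nat.succ_mul_centralBinom_succ n
    have h2 : (n + 1) ^ 2 * ((n + 1).centralBinom ^ 2 * (3 * (n + 1) + 1)) ≤
        (n + 1) ^ 2 * 16 ^ (n + 1) := by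
      calc (n + 1) ^ 2 * ((n + 1).centralBinom ^ 2 * (3 * (n + 1) + 1))
          = ((n + 1) * (n + 1).centralBinom) ^ 2 * (3 * (n + 1) + 1) := by ring
        _ = (2 * (2 * n + 1) * n.centralBinom) ^ 2 * (3 * (n + 1) + 1) := by rw [h1]
        _ = n.centralBinom ^ 2 * (4 * ((2 * n + 1) ^ 2 * (3 * n + 4))) := by ring
        _ ≤ n.centralBinom ^ 2 * (4 * (4 * ((n + 1) ^ 2 * (3 * n + 1)))) := by
            apply Nat.mul_le_mul_left
            apply Nat.mul_le_mul_left
            nlinarith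
        _ = 16 * (n + 1) ^ 2 * (n.centralBinom ^ 2 * (3 * n + 1)) := by ring
        _ ≤ 16 * (n + 1) ^ 2 * 16 ^ n := Nat.mul_le_mul_left _ ih
        _ = (n + 1) ^ 2 * 16 ^ (n + 1) := by ring
    exact Nat.le_of_mul_le_mul_left h2 (by positivity)

theorem LO1_choose (a : ℕ) (ha : 1 ≤ a) :
    (2 ^ (2 * a)).choose (2 ^ (2 * a) / 2) * 2 ^ a ≤ 2 ^ (2 ^ (2 * a)) := by
  set n : ℕ := 2 ^ (2 * a - 1) with hn
  have e1 : 2 ^ (2 * a) = 2 * n := by
    rw [hn, ← pow_succ']
    congr 1
    omega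
  have e2 : 2 ^ (2 * a) / 2 = n := by rw [e1]; omega
  rw [e2, e1]
  have h1 := LO1_cb n
  rw [Nat.centralBinom] at h1
  have h2 : ((2 * n).choose n * 2 ^ a) ^ 2 ≤ (2 ^ (2 * n)) ^ 2 := by
    calc ((2 * n).choose n * 2 ^ a) ^ 2 = (2 * n).choose n ^ 2 * 2 ^ (2 * a) := by
          rw [mul_pow, ← pow_mul, mul_comm a 2]
      _ = (2 * n).choose n ^ 2 * (2 * n) := by rw [e1]
      _ ≤ (2 * n).choose n ^ 2 * (3 * n + 1) := Nat.mul_le_mul_left _ (by omega)
      _ ≤ 16 ^ n := h1
      _ = (2 ^ (2 * n)) ^ 2 := by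
          rw [← pow_mul, show 2 * n * 2 = 4 * n by ring, pow_mul]
          norm_num
  exact (Nat.pow_le_pow_iff_left (by norm_num)).1 h2

theorem LO1_fib {t p : ℕ} (w : Fin t → ZMod p) (c : ZMod p) (J : Finset (Fin t)) (v : Fin t → ℕ)
    (s : Fin t → Bool) (hv : ∀ j ∈ J, 1 ≤ v j)
    (hs : ∀ j ∈ J, c * w j = if s j then -(v j : ZMod p) else (v j : ZMod p))
    (hsum : ∑ j ∈ J, v j < p) (F : Finset (Fin t → Bool)) (hF : ∀ b ∈ F, dotb b w = 0)
    (hr : ∀ b ∈ F, ∀ b' ∈ F, ∀ j, j ∉ J → b j = b' j) :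
    F.card ≤ J.card.choose (J.card / 2) := by
  classical
  set A : (Fin t → Bool) → Finset J := fun b => univ.filter (fun j : J => b j.1 ≠ s j.1) with hA
  have key : ∀ b ∈ F, ∀ b' ∈ F, A b ⊆ A b' → b = b' := by
    intro b hb b' hb' hsub
    have h1 : c * dotb b' w - c * dotb b w = 0 := by
      rw [hF b hb, hF b' hb', sub_self]
    have h2 : c * dotb b' w - c * dotb b w =
        ((∑ j ∈ J.filter (fun j => b' j ≠ s j ∧ b j = s j), v j : ℕ) : ZMod p) := by
      unfold dotb
      rw [Finset.mul_sum, Finset.mul_sum, ← Finset.sum_sub_distrib, Nat.cast_sum,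
        Finset.sum_filter]
      rw [← Finset.sum_subset (Finset.subset_univ J)]
      · refine Finset.sum_congr rfl fun j hj => ?_
        have hj1 := hs j hj
        have hj2 : b j ≠ s j → b' j ≠ s j := by
          intro h
          have := hsub (show (⟨j, hj⟩ : J) ∈ A b from by
            rw [hA]; exact Finset.mem_filter.2 ⟨Finset.mem_univ _, h⟩)
          rw [hA] at this
          exact (Finset.mem_filter.1 this).2
        rw [mul_ite, mul_ite, mul_zero, hj1]
        revert hj2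
        cases hbj : b j <;> cases hbj' : b' j <;> cases hsj : s j <;> simp
      · intro j _ hj
        rw [hr b hb b' hb' j hj, sub_self]
    rw [h2] at h1
    have h3 := (ZMod.natCast_eq_zero_iff _ _).1 h1
    have h4 : ∑ j ∈ J.filter (fun j => b' j ≠ s j ∧ b j = s j), v j < p :=
      (Finset.sum_le_sum_of_subset (Finset.filter_subset _ _)).trans_lt hsum
    have h5 := Nat.eq_zero_of_dvd_of_lt h3 h4
    have h6 : ∀ j ∈ J, ¬ (b' j ≠ s j ∧ b j = s j) := by
      intro j hj hcon
      have h7 := (Finset.sum_eq_zero_iff.1 h5) j (Finset.mem_filter.2 ⟨hj, hcon⟩)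
      have := hv j hj
      omega
    funext j
    by_cases hj : j ∈ J
    · have h7 := h6 j hj
      have hj2 : b j ≠ s j → b' j ≠ s j := by
        intro h
        have := hsub (show (⟨j, hj⟩ : J) ∈ A b from by
          rw [hA]; exact Finset.mem_filter.2 ⟨Finset.mem_univ _, h⟩)
        rw [hA] at this
        exact (Finset.mem_filter.1 this).2
      revert hj2 h7
      cases hbj : b j <;> cases hbj' : b' j <;> cases hsj : s j <;> simp
    · exact hr b hb b' hb' j hj
  have hinj : Set.InjOn A (F : Set (Fin t → Bool)) := by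
    intro b hb b' hb' h
    exact key b hb b' hb' (by rw [h])
  have hanti : IsAntichain (· ⊆ ·) ((F.image A : Finset (Finset J)) : Set (Finset J)) := by
    intro x hx y hy hxy hsub
    obtain ⟨b, hb, rfl⟩ := Finset.mem_image.1 (Finset.mem_coe.1 hx)
    obtain ⟨b', hb', rfl⟩ := Finset.mem_image.1 (Finset.mem_coe.1 hy)
    exact hxy (by rw [key b hb b' hb' hsub])
  have h1 := hanti.sperner
  rw [Finset.card_image_of_injOn hinj, Fintype.card_coe] at h1
  exact h1

theorem LO1_all {t p : ℕ} (w : Fin t → ZMod p) (c : ZMod p) (J : Finset (Fin t)) (v : Fin t → ℕ)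
    (s : Fin t → Bool) (hv : ∀ j ∈ J, 1 ≤ v j)
    (hs : ∀ j ∈ J, c * w j = if s j then -(v j : ZMod p) else (v j : ZMod p))
    (hsum : ∑ j ∈ J, v j < p) (F : Finset (Fin t → Bool)) (hF : ∀ b ∈ F, dotb b w = 0) :
    F.card ≤ J.card.choose (J.card / 2) * 2 ^ (t - J.card) := by
  classical
  have h1 := Finset.card_le_mul_card_image_of_maps_to
    (f := fun (b : Fin t → Bool) (j : {j // j ∉ J}) => b j.1) (s := F)
    (t := (Finset.univ : Finset ({j // j ∉ J} → Bool))) (fun _ _ => Finset.mem_univ _)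
    (J.card.choose (J.card / 2)) (by
      intro r _
      refine LO1_fib w c J v s hv hs hsum _ (fun b hb => hF b (Finset.mem_filter.1 hb).1) ?_
      intro b hb b' hb' j hj
      have h2 := (Finset.mem_filter.1 hb).2
      have h3 := (Finset.mem_filter.1 hb').2
      have h4 := congrFun (h2.trans h3.symm) ⟨j, hj⟩
      exact h4)
  have h2 : (Finset.univ : Finset ({j // j ∉ J} → Bool)).card = 2 ^ (t - J.card) := by
    rw [Finset.card_univ, Fintype.card_fun, Fintype.card_bool, Fintype.card_subtype_compl,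
      Fintype.card_fin, Fintype.card_coe]
  rw [h2] at h1
  exact h1

/-- the residues `±1, ..., ±h` -/
noncomputable def LO1_S (p h : ℕ) : Finset (ZMod p) :=
  (((Finset.Icc (-(h : ℤ)) h).erase 0).image (fun z : ℤ => (z : ZMod p)))

theorem LO1_Scard (p h : ℕ) (hp : 2 * h < p) : (LO1_S p h).card = 2 * h := by
  classical
  unfold LO1_S
  rw [Finset.card_image_of_injOn, Finset.card_erase_of_mem, Int.card_Icc]
  · omega
  · rw [Finset.mem_Icc]; omega
  · intro x hx y hy hxy
    have hx1 := Finset.mem_Icc.1 (Finset.mem_erase.1 (Finset.mem_coe.1 hx)).2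
    have hy1 := Finset.mem_Icc.1 (Finset.mem_erase.1 (Finset.mem_coe.1 hy)).2
    have h1 : ((x - y : ℤ) : ZMod p) = 0 := by
      have : (x : ZMod p) = y := hxy
      rw [Int.cast_sub, this, sub_self]
    have h2 := (ZMod.intCast_zmod_eq_zero_iff_dvd _ _).1 h1
    have h3 : |x - y| < p := by
      rw [abs_lt]; constructor <;> linarith [hx1.1, hx1.2, hy1.1, hy1.2]
    have h4 := Int.eq_zero_of_abs_lt_dvd h2 h3
    linarith

theorem LO1_mul (p h : ℕ) [Fact p.Prime] (x : ZMod p) (hx : x ≠ 0) :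
    (Finset.univ.filter (fun c : ZMod p => c * x ∈ LO1_S p h)).card = (LO1_S p h).card := by
  classical
  refine Finset.card_bij (fun c _ => c * x) ?_ ?_ ?_
  · intro c hc
    exact (Finset.mem_filter.1 hc).2
  · intro c _ c' _ h
    exact mul_right_cancel₀ hx h
  · intro y hy
    refine ⟨y * x⁻¹, Finset.mem_filter.2 ⟨Finset.mem_univ _, ?_⟩, ?_⟩
    · rw [mul_assoc, inv_mul_cancel₀ hx, mul_one]; exact hy
    · rw [mul_assoc, inv_mul_cancel₀ hx, mul_one]

theorem LO1 : LO1_stmt := by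
  classical
  intro p a t w hp ha hpa hw
  haveI : Fact p.Prime := ⟨hp⟩
  set n0 : ℕ := 2 ^ (2 * a) with hn0
  have hn0pos : 0 < n0 := by rw [hn0]; positivity
  have hn02 : 2 ≤ n0 := by
    rw [hn0]
    calc 2 = 2 ^ 1 := by norm_num
      _ ≤ 2 ^ (2 * a) := Nat.pow_le_pow_right (by norm_num) (by omega)
  set h : ℕ := (p - 1) / (2 * n0) with hh
  have hp3 : 2 ^ (3 * a) ≤ p - 1 := by
    have : 2 ^ (3 * a) ≠ p := by
      intro hcon
      rw [← hcon] at hp
      exact (Nat.Prime.not_prime_pow (by omega : 2 ≤ 3 * a)) hp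
    omega
  have h2n : 2 * n0 ≤ p - 1 := by
    calc 2 * n0 = 2 ^ (2 * a + 1) := by rw [hn0, pow_succ']
      _ ≤ 2 ^ (3 * a) := Nat.pow_le_pow_right (by norm_num) (by omega)
      _ ≤ p - 1 := hp3
  have hh1 : 1 ≤ h := by
    rw [hh, Nat.le_div_iff_mul_le (by omega)]
    omega
  have hhle : 2 * n0 * h ≤ p - 1 := by
    rw [hh]; exact Nat.mul_div_le _ _
  have hhlt : p ≤ 2 * n0 * (h + 1) := by
    have := Nat.lt_mul_div_succ (p - 1) (show 0 < 2 * n0 by omega)
    rw [← hh] at this
    omega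
  have hp4 : p ≤ 4 * n0 * h := by nlinarith
  have h2h : 2 * h < p := by
    have : 2 * h ≤ 2 * n0 * h := by nlinarith
    have := hp.pos
    omega
  -- the number of nonzero coordinates
  set W : Finset (Fin t) := Finset.univ.filter (fun j => w j ≠ 0) with hW
  have hWc : Set.ncard {j | w j ≠ 0} = W.card := by
    rw [← Set.ncard_coe_finset]
    congr 1
    ext j
    rw [Set.mem_ofPred_eq, hW, Finset.mem_coe, Finset.mem_filter]
    exact ⟨fun h => ⟨Finset.mem_univ _, h⟩, fun h => h.2⟩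
  rw [hWc] at hw
  -- choice of `c`
  have hex : ∃ c : ZMod p, n0 ≤ (W.filter (fun j => c * w j ∈ LO1_S p h)).card := by
    by_contra hcon
    push Not at hcon
    have h1 : ∑ c : ZMod p, (W.filter (fun j => c * w j ∈ LO1_S p h)).card = W.card * (2 * h) := by
      simp_rw [Finset.card_filter]
      rw [Finset.sum_comm]
      calc ∑ j ∈ W, ∑ c : ZMod p, (if c * w j ∈ LO1_S p h then 1 else 0)
          = ∑ j ∈ W, 2 * h := by
            refine Finset.sum_congr rfl fun j hj => ?_
            rw [← Finset.card_filter, LO1_mul p h (w j) (Finset.mem_filter.1 hj).2,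
              LO1_Scard p h h2h]
        _ = W.card * (2 * h) := by rw [Finset.sum_const, smul_eq_mul]
    have h2 : ∑ c : ZMod p, (W.filter (fun j => c * w j ∈ LO1_S p h)).card < p * n0 := by
      calc ∑ c : ZMod p, (W.filter (fun j => c * w j ∈ LO1_S p h)).card
          < ∑ c : ZMod p, n0 := Finset.sum_lt_sum_of_nonempty Finset.univ_nonempty
              fun c _ => hcon c
        _ = p * n0 := by rw [Finset.sum_const, smul_eq_mul, Finset.card_univ, ZMod.card]
    rw [h1] at h2
    have h3 : p * n0 ≤ 2 ^ (7 * a) * h := by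
      calc p * n0 ≤ 4 * n0 * h * n0 := Nat.mul_le_mul_right _ hp4
        _ = 2 ^ (4 * a + 2) * h := by
            rw [hn0, pow_add, show 4 * a = 2 * a + 2 * a by ring, pow_add]; ring
        _ ≤ 2 ^ (7 * a) * h := Nat.mul_le_mul_right _
            (Nat.pow_le_pow_right (by norm_num) (by omega))
    have h4 : 2 ^ (7 * a) * h ≤ W.card * (2 * h) := by
      calc 2 ^ (7 * a) * h ≤ 2 * W.card * h := Nat.mul_le_mul_right _ hw
        _ = W.card * (2 * h) := by ring
    omega
  obtain ⟨c, hc⟩ := hex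
  obtain ⟨J, hJsub, hJcard⟩ := Finset.exists_subset_card_eq hc
  -- signs and sizes
  have hsv : ∀ j : Fin t, ∃ (v : ℕ) (s : Bool), j ∈ J → 1 ≤ v ∧ v ≤ h ∧
      c * w j = if s then -(v : ZMod p) else (v : ZMod p) := by
    intro j
    by_cases hj : j ∈ J
    · have h1 := (Finset.mem_filter.1 (hJsub hj)).2
      unfold LO1_S at h1
      obtain ⟨z, hz, hzc⟩ := Finset.mem_image.1 h1
      have hz0 := (Finset.mem_erase.1 hz).1
      have hz1 := Finset.mem_Icc.1 (Finset.mem_erase.1 hz).2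
      rcases lt_or_gt_of_ne hz0 with hneg | hpos
      · refine ⟨(-z).toNat, true, fun _ => ⟨by omega, by omega, ?_⟩⟩
        have e : (((-z).toNat : ℕ) : ZMod p) = ((-z : ℤ) : ZMod p) := by
          have : ((((-z).toNat : ℕ) : ℤ)) = -z := Int.toNat_of_nonneg (by omega)
          rw [← Int.cast_natCast, this]
        rw [if_pos rfl, e, Int.cast_neg, neg_neg, ← hzc]
      · refine ⟨z.toNat, false, fun _ => ⟨by omega, by omega, ?_⟩⟩
        have e : ((z.toNat : ℕ) : ZMod p) = ((z : ℤ) : ZMod p) := by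
          have : (((z.toNat : ℕ) : ℤ)) = z := Int.toNat_of_nonneg (by omega)
          rw [← Int.cast_natCast, this]
        rw [if_neg (by decide), e, ← hzc]
    · exact ⟨0, false, fun h => absurd h hj⟩
  choose v s hvs using hsv
  have hsum : ∑ j ∈ J, v j < p := by
    calc ∑ j ∈ J, v j ≤ ∑ j ∈ J, h := Finset.sum_le_sum fun j hj => (hvs j hj).2.1
      _ = n0 * h := by rw [Finset.sum_const, smul_eq_mul, hJcard]
      _ ≤ 2 * n0 * h := Nat.mul_le_mul_right _ (by omega)
      _ < p := by have := hp.pos; omega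
  set F : Finset (Fin t → Bool) := Finset.univ.filter (fun b => dotb b w = 0) with hF
  have hFc : Set.ncard {b : Fin t → Bool | dotb b w = 0} = F.card := by
    rw [← Set.ncard_coe_finset]
    congr 1
    ext b
    rw [Set.mem_ofPred_eq, hF, Finset.mem_coe, Finset.mem_filter]
    exact ⟨fun h => ⟨Finset.mem_univ _, h⟩, fun h => h.2⟩
  rw [hFc]
  have hmain := LO1_all w c J v s (fun j hj => (hvs j hj).1) (fun j hj => (hvs j hj).2.2) hsum F
    (fun b hb => (Finset.mem_filter.1 hb).2)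
  rw [hJcard] at hmain
  have hJt : n0 ≤ t := by
    rw [← hJcard]
    calc J.card ≤ (Finset.univ : Finset (Fin t)).card := Finset.card_le_univ J
      _ = t := by rw [Finset.card_univ, Fintype.card_fin]
  calc F.card * 2 ^ a ≤ n0.choose (n0 / 2) * 2 ^ (t - n0) * 2 ^ a := Nat.mul_le_mul_right _ hmain
    _ = (n0.choose (n0 / 2) * 2 ^ a) * 2 ^ (t - n0) := by ring
    _ ≤ 2 ^ n0 * 2 ^ (t - n0) := Nat.mul_le_mul_right _ (LO1_choose a ha)
    _ = 2 ^ t := by rw [← pow_add, Nat.add_sub_cancel' hJt]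

end Pool.Agent.helper42.NS
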